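import Pool.Agent.HP42.TR.Obs
import Pool.Agent.H509R3.CFDim

/-!
# Q2: the conjectured lower bound for the multiplicities of traces fails

For the alphabets `A = {9, 17, ..., 8 K + 1}`, `K` large, the Cantor set has dimension larger than one
half, all the numbers `m ^ 2 - 2`, where all prime factors of `m` are `1` modulo `4`, are admissible, and
none of them is the trace of a product of even length of the generating matrices: their multiplicity is
zero. The numbers `m = 4 j ^ 2 + 1` give such numbers in every interval `[N, 2 N)`, `N` large.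
-/

set_option autoImplicit false
open Filter Topology

namespace Pool.Agent.Results.MP_f5ee21_nt.MultiplicityFails

/-- `Γ_A`: the products of even length of the matrices `(a, 1; 1, 0)`, `a ∈ A` -/
def Gam (A : Finset ℕ) : Set (Matrix (Fin 2) (Fin 2) ℤ) :=
  {M | ∃ l : List ℕ, l ≠ [] ∧ Even l.length ∧ (∀ b ∈ l, b ∈ A) ∧
    M = (l.map fun b : ℕ => (!![(b : ℤ), 1; 1, 0] : Matrix (Fin 2) (Fin 2) ℤ)).prod}

/-- `t` is a trace of an element of `Γ_A` modulo every `q ≥ 1` -/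
def Admissible (A : Finset ℕ) (t : ℤ) : Prop :=
  ∀ q : ℤ, 1 ≤ q → ∃ M ∈ Gam A, M.trace ≡ t [ZMOD q]

/-- the number of the elements of `Γ_A` with trace `t` -/
noncomputable def mult (A : Finset ℕ) (t : ℤ) : ℕ := {M | M ∈ Gam A ∧ M.trace = t}.ncard

/-- the numbers with continued fraction expansion `[a 0, a 1, ...]`, all letters in `A` -/
def cantor (A : Finset ℕ) : Set ℝ :=
  {x : ℝ | ∃ a : ℕ → ℕ, (∀ j, a j ∈ A) ∧
    Tendsto (fun n : ℕ =>
      ((List.map (fun j : ℕ => (!![(a j : ℝ), 1; 1, 0] : Matrix (Fin 2) (Fin 2) ℝ))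
        (List.range (n + 1))).prod 0 0) /
      ((List.map (fun j : ℕ => (!![(a j : ℝ), 1; 1, 0] : Matrix (Fin 2) (Fin 2) ℝ))
        (List.range (n + 1))).prod 1 0)) atTop (𝓝 x)}

/-- the assertion of Q2 -/
def Q2 : Prop :=
  ∀ A : Finset ℕ, (∀ a ∈ A, 1 ≤ a) → 2 ≤ A.card → 1 / 2 < dimH (cantor A) →
    ∀ ε : ℝ, 0 < ε → ∃ N₀ : ℝ, ∀ N : ℝ, N₀ ≤ N → ∀ t : ℤ, N ≤ t → (t : ℝ) < 2 * N → Admissible A t →
      N ^ (2 * (dimH (cantor A)).toReal - 1 - ε) < mult A t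

/-- Q2 is false. There is an alphabet `{9, 17, ..., 8 K + 1}` with dimension larger than one half such that `m ^ 2 - 2` is
admissible and of multiplicity zero (no element of `Γ_A` has this trace) for every `m` all of whose prime
factors are `1` modulo `4`; and every interval `[N, 2 N)`, `N` large, contains such numbers. -/
theorem result :
    (∃ K : ℕ, ∃ A : Finset ℕ, A = (Finset.range K).image (fun i => 8 * i + 9) ∧
      (∀ a ∈ A, 1 ≤ a) ∧ 2 ≤ A.card ∧ 1 / 2 < dimH (cantor A) ∧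
      (∀ m : ℕ, (∀ p : ℕ, p.Prime → p ∣ m → p % 4 = 1) →
        Admissible A ((m : ℤ) ^ 2 - 2) ∧ (∀ M ∈ Gam A, M.trace ≠ (m : ℤ) ^ 2 - 2) ∧
          mult A ((m : ℤ) ^ 2 - 2) = 0) ∧
      ∃ N₁ : ℝ, ∀ N : ℝ, N₁ ≤ N → ∃ t : ℤ, N ≤ t ∧ (t : ℝ) < 2 * N ∧ Admissible A t ∧ mult A t = 0) ∧
    ¬ Q2 := by
  have main : ∃ K : ℕ, ∃ A : Finset ℕ, A = (Finset.range K).image (fun i => 8 * i + 9) ∧
      (∀ a ∈ A, 1 ≤ a) ∧ 2 ≤ A.card ∧ 1 / 2 < dimH (cantor A) ∧
      (∀ m : ℕ, (∀ p : ℕ, p.Prime → p ∣ m → p % 4 = 1) →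
        Admissible A ((m : ℤ) ^ 2 - 2) ∧ (∀ M ∈ Gam A, M.trace ≠ (m : ℤ) ^ 2 - 2) ∧
          mult A ((m : ℤ) ^ 2 - 2) = 0) ∧
      ∃ N₁ : ℝ, ∀ N : ℝ, N₁ ≤ N → ∃ t : ℤ, N ≤ t ∧ (t : ℝ) < 2 * N ∧ Admissible A t ∧ mult A t = 0 := by
    obtain ⟨K, hK, hdim⟩ := Pool.Agent.H509R3.exists_dim
    have h9 : 9 ∈ (Finset.range K).image (fun i => 8 * i + 9) :=
      Finset.mem_image.mpr ⟨0, Finset.mem_range.mpr (by omega), rfl⟩
    have h17 : 17 ∈ (Finset.range K).image (fun i => 8 * i + 9) :=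
      Finset.mem_image.mpr ⟨1, Finset.mem_range.mpr (by omega), rfl⟩
    set A : Finset ℕ := (Finset.range K).image (fun i => 8 * i + 9) with hA
    have hm : ∀ m : ℕ, (∀ p : ℕ, p.Prime → p ∣ m → p % 4 = 1) →
        Admissible A ((m : ℤ) ^ 2 - 2) ∧ (∀ M ∈ Gam A, M.trace ≠ (m : ℤ) ^ 2 - 2) ∧
          mult A ((m : ℤ) ^ 2 - 2) = 0 := by
      intro m hm
      have hno : ∀ M ∈ Gam A, M.trace ≠ (m : ℤ) ^ 2 - 2 := by
        rintro M ⟨l, -, hev, hmem, rfl⟩
        refine Pool.Agent.HP42.TR.no_trace_gen l ?_ hev m hm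
        intro b hb
        obtain ⟨i, _, rfl⟩ := Finset.mem_image.mp (hmem b hb)
        omega
      refine ⟨?_, hno, ?_⟩
      · intro q hq
        obtain ⟨l, h1, h2, h3, h4⟩ := Pool.Agent.HP42.TR.admissible_gen m
          (Pool.Agent.HP42.TR.odd_of hm) q hq
        refine ⟨_, ⟨l, h1, h2, ?_, rfl⟩, h4⟩
        intro b hb
        rcases h3 b hb with h | h
        · rw [h]; exact h9
        · rw [h]; exact h17
      · unfold mult
        have : {M | M ∈ Gam A ∧ M.trace = (m : ℤ) ^ 2 - 2} = ∅ := by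
          ext M
          simp only [Set.mem_setOf_eq, Set.mem_empty_iff_false, iff_false, not_and]
          exact fun h => hno M h
        rw [this, Set.ncard_empty]
    refine ⟨K, A, hA, ?_, ?_, hdim, hm, 100000, ?_⟩
    · intro a ha
      obtain ⟨i, _, rfl⟩ := Finset.mem_image.mp ha
      omega
    · rw [hA, Finset.card_image_of_injective _ (fun a b h => by simpa using h), Finset.card_range]
      exact hK
    · intro N hN
      obtain ⟨j, hj1, hj2⟩ := Pool.Agent.HP42.TR.exists_in_interval N hN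
      obtain ⟨h1, -, h3⟩ := hm (4 * j ^ 2 + 1) (Pool.Agent.HP42.TR.oneModFour_sq_add j)
      refine ⟨((4 * j ^ 2 + 1 : ℕ) : ℤ) ^ 2 - 2, ?_, ?_, h1, h3⟩
      · push_cast at hj1 ⊢
        exact hj1
      · push_cast at hj2 ⊢
        exact hj2
  refine ⟨main, fun hQ => ?_⟩
  obtain ⟨K, A, -, hA1, hA2, hA3, -, N₁, hN₁⟩ := main
  obtain ⟨N₀, hN₀⟩ := hQ A hA1 hA2 hA3 1 one_pos
  obtain ⟨t, ht1, ht2, ht3, ht4⟩ := hN₁ (max (max N₀ N₁) 1) ((le_max_right _ _).trans (le_max_left _ _))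
  have h := hN₀ (max (max N₀ N₁) 1) ((le_max_left _ _).trans (le_max_left _ _)) t ht1 ht2 ht3
  rw [ht4] at h
  have h0 : (0 : ℝ) < (max (max N₀ N₁) 1) ^ (2 * (dimH (cantor A)).toReal - 1 - 1) :=
    Real.rpow_pos_of_pos (lt_of_lt_of_le one_pos (le_max_right _ _)) _
  push_cast at h
  linarith

end Pool.Agent.Results.MP_f5ee21_nt.MultiplicityFails
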